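import Mathlib

namespace Pool.Agent.Results.MP_038775_ag.NotExp
open Polynomial

/-- A `G_a`-action: (A1) and (A2), with `T = C X` and `U = X` in `B[T][U]`. -/
def IsGa {k B : Type*} [CommRing k] [CommRing B] [Algebra k B] (ε : B →ₐ[k] B[X]) : Prop :=
  (∀ b, (ε b).coeff 0 = b) ∧
    ∀ b, (ε b).map (ε : B →+* B[X]) = aeval (C X + X : B[X][X]) (ε b)

/-- Exponential automorphisms. -/
def Exponential {k B : Type*} [CommRing k] [CommRing B] [Algebra k B] (φ : B ≃ₐ[k] B) : Prop :=
  ∃ ε : B →ₐ[k] B[X], IsGa ε ∧ ∃ a, ε a = C a ∧ ∀ b, φ b = (ε b).eval a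

section
variable {k B : Type*} [CommRing k] [CommRing B] [Algebra k B]

theorem comm {ε : B →ₐ[k] B[X]} (h : IsGa ε) {a : B} (ha : ε a = C a) (b : B) :
    ε ((ε b).eval a) = (ε b).map ((evalRingHom a).comp (ε : B →+* B[X])) := by
  have h1 := congrArg (eval (C a)) (h.2 b)
  have h2 := congrArg (map (evalRingHom a)) (h.2 b)
  rw [map_map] at h2
  rw [h2]
  have e1 : eval (C a) ((ε b).map (ε : B →+* B[X])) = ε ((ε b).eval a) := by
    rw [← ha, eval_map]
    exact (eval₂_hom (ε : B →+* B[X]) a)
  rw [← e1, h1]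
  induction (ε b) using Polynomial.induction_on' with
  | add p q hp hq => simp only [map_add, eval_add, Polynomial.map_add, hp, hq]
  | monomial n c => simp [aeval_monomial, add_comm]

theorem inv_of_dvd [IsDomain B] {ε : B →ₐ[k] B[X]} (h : IsGa ε) {c : B} (hc : c ≠ 0)
    (hd : C c ∣ ε c) : ε c = C c := by
  obtain ⟨g, hg⟩ := hd
  have h1 := congrArg (eval (-X : B[X])) (h.2 c)
  have e2 : ∀ q : B[X], eval (-X : B[X]) (aeval (C X + X : B[X][X]) q) = C (q.coeff 0) := by
    intro q
    induction q using Polynomial.induction_on' with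
    | add p q hp hq => simp only [map_add, eval_add, hp, hq, coeff_add]
    | monomial n c =>
      rcases n with _ | n
      · simp [aeval_monomial]
      · simp [aeval_monomial, coeff_monomial]
  rw [e2, h.1, hg, Polynomial.map_mul, map_C, eval_mul, eval_C] at h1
  change ε c * _ = _ at h1
  rw [hg, mul_assoc] at h1
  have h2 : g * eval (-X) (g.map (ε : B →+* B[X])) = 1 :=
    mul_left_cancel₀ (C_ne_zero.2 hc) (by rw [h1, mul_one])
  have h3 := natDegree_eq_zero_of_isUnit (IsUnit.of_mul_eq_one _ h2)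
  have h4 : (ε c).natDegree = 0 := by rw [hg, natDegree_C_mul hc, h3]
  rw [eq_C_of_natDegree_eq_zero h4, h.1]

theorem not_exp [IsDomain B] (p : ℕ) [Fact p.Prime] {φ : B ≃ₐ[k] B} (t x y f : B) (π : B →+* B)
    (hπ : π t = 0) (hf : f = t * y + x ^ p - x) [CharP B p] (h0 : t * f ≠ 0)
    (h1 : φ x = x + (1 + t * f)) (h2 : ∀ b, (1 + t * f) ∣ φ b - b) : ¬ Exponential φ := by
  rintro ⟨ε, h, a, ha, hφ⟩
  have hc : 1 + t * f ≠ 0 := fun h => by simpa [hπ] using congrArg π h
  have a1 : ε (1 + t * f) = C (1 + t * f) := by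
    apply inv_of_dvd h hc
    have : ε (1 + t * f) = ε (φ x) - ε x := by rw [← map_sub, h1]; congr 1; ring
    rw [this, hφ, comm h ha, C_dvd_iff_dvd_coeff]
    intro i
    rw [coeff_sub, coeff_map]
    have := h2 ((ε x).coeff i)
    rwa [hφ] at this
  have a2 : ε t * ε f = C (t * f) := by
    rw [map_add, map_add, map_one, map_one, map_mul] at a1
    exact add_left_cancel a1
  have a3 : ε t ≠ 0 ∧ ε f ≠ 0 := by
    rw [← mul_ne_zero_iff, a2]; exact C_ne_zero.2 h0
  have a4 := congrArg natDegree a2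
  rw [natDegree_mul a3.1 a3.2, natDegree_C] at a4
  have a5 : ε t = C t := by rw [eq_C_of_natDegree_eq_zero (show (ε t).natDegree = 0 by omega), h.1]
  have a6 : ε f = C f := by rw [eq_C_of_natDegree_eq_zero (show (ε f).natDegree = 0 by omega), h.1]
  set u : B[X] := (ε x - C x).map π with hu
  have a7 : u ^ p = u := by
    have e := congrArg (map π) a6
    rw [hf] at e
    simp only [map_sub, map_add, map_mul, map_pow, a5, Polynomial.map_sub, Polynomial.map_add,
      Polynomial.map_mul, Polynomial.map_pow, map_C, hπ, map_zero, zero_mul, zero_add] at e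
    rw [hu, Polynomial.map_sub, map_C, sub_pow_char]
    linear_combination e
  have a8 : u.eval 0 = 0 := by
    rw [← coeff_zero_eq_eval_zero, hu, coeff_map, coeff_sub, h.1, coeff_C_zero, sub_self, map_zero]
  have hp := (Fact.out : p.Prime).two_le
  have a9 : u = 0 := by
    by_contra hne
    have : u ^ (p - 1) = 1 := by
      apply mul_left_cancel₀ hne
      rw [← pow_succ', Nat.sub_add_cancel (by omega), a7, mul_one]
    have := congrArg (eval 0) this
    rw [eval_pow, a8, zero_pow (by omega), eval_one] at this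
    exact zero_ne_one this
  have b1 : u.eval (π a) = π (φ x - x) := by
    rw [hu, eval_map, eval₂_hom, eval_sub, eval_C, hφ]
  rw [a9, h1] at b1
  simp [hπ] at b1

end

theorem result (k : Type*) [Field k] (p : ℕ) [CharP k p] (hp : 0 < p) (n : ℕ) (hn : 3 ≤ n) :
    ∃ φ : MvPolynomial (Fin n) k ≃ₐ[k] MvPolynomial (Fin n) k,
      orderOf φ = p ∧ ¬ Exponential φ := by
  have : Fact p.Prime := ⟨CharP.char_prime_of_ne_zero k hp.ne'⟩
  obtain ⟨m, rfl⟩ : ∃ m, n = m + 3 := ⟨n - 3, by omega⟩
  let t : MvPolynomial (Fin (m + 3)) k := MvPolynomial.X 0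
  let x : MvPolynomial (Fin (m + 3)) k := MvPolynomial.X 1
  let y : MvPolynomial (Fin (m + 3)) k := MvPolynomial.X 2
  let f := t * y + x ^ p - x
  let c := 1 + t * f
  let d := f - t ^ (p - 1) * f ^ p
  let v : Fin (m + 3) → MvPolynomial (Fin (m + 3)) k := fun i =>
    if i = 1 then c else if i = 2 then d else 0
  let ψ : ℤ → MvPolynomial (Fin (m + 3)) k →ₐ[k] MvPolynomial (Fin (m + 3)) k := fun s =>
    MvPolynomial.aeval fun i => MvPolynomial.X i + (s : MvPolynomial (Fin (m + 3)) k) * v i
  have n01 : (0 : Fin (m + 3)) ≠ 1 := by simp [Fin.ext_iff]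
  have n02 : (0 : Fin (m + 3)) ≠ 2 := by simp [Fin.ext_iff, Nat.mod_eq_of_lt]
  have n21 : (2 : Fin (m + 3)) ≠ 1 := by simp [Fin.ext_iff, Nat.mod_eq_of_lt]
  have ψX : ∀ (s : ℤ) i, ψ s (MvPolynomial.X i) =
      MvPolynomial.X i + (s : MvPolynomial (Fin (m + 3)) k) * v i := fun s i => by simp [ψ]
  have ψt : ∀ s, ψ s t = t := fun s => by simp [t, ψX, v, n01, n02]
  have ψx : ∀ s : ℤ, ψ s x = x + s * c := fun s => by simp [x, ψX, v]
  have ψy : ∀ s : ℤ, ψ s y = y + s * d := fun s => by simp [y, ψX, v, n21]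
  have tp : t * t ^ (p - 1) = t ^ p := by rw [← pow_succ', Nat.sub_add_cancel hp]
  have ψf : ∀ s : ℤ, ψ s f = f := by
    intro s
    have hs : ((s : MvPolynomial (Fin (m + 3)) k)) ^ p = s := by
      rw [← frobenius_def]; exact map_intCast _ s
    have e : ψ s f = t * (y + s * d) + (x + s * c) ^ p - (x + s * c) := by
      simp only [f, map_sub, map_add, map_mul, map_pow, ψt, ψx, ψy]
    rw [e, add_pow_char, mul_pow, hs, add_pow_char, one_pow, mul_pow]
    have e2 : f = t * y + x ^ p - x := rfl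
    simp only [c, d]
    linear_combination (-1 : MvPolynomial (Fin (m + 3)) k) * e2 - (s * f ^ p) * tp
  have ψv : ∀ s i, ψ s (v i) = v i := by
    intro s i
    simp only [v]
    split_ifs
    · simp only [c, map_add, map_mul, map_one, ψt, ψf]
    · simp only [d, map_sub, map_mul, map_pow, ψt, ψf]
    · exact map_zero _
  have ψadd : ∀ s s', (ψ s).comp (ψ s') = ψ (s + s') := fun s s' =>
    MvPolynomial.algHom_ext fun i => by
      simp only [AlgHom.comp_apply, ψX, map_add, map_mul, map_intCast, ψv]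
      push_cast; ring
  have ψ0 : ψ 0 = AlgHom.id _ _ := MvPolynomial.algHom_ext fun i => by simp [ψX]
  let φ := AlgEquiv.ofAlgHom (ψ 1) (ψ (-1)) (by rw [ψadd]; simpa using ψ0)
    (by rw [ψadd]; simpa using ψ0)
  have hφ : ∀ b, φ b = ψ 1 b := fun _ => rfl
  have hpow : ∀ j : ℕ, ∀ b, (φ ^ j) b = ψ j b := by
    intro j
    induction j with
    | zero => intro b; simp [ψ0]
    | succ j ih =>
      intro b
      rw [pow_succ, AlgEquiv.mul_apply, ih, hφ, ← AlgHom.comp_apply, ψadd]; simp
  let π : MvPolynomial (Fin (m + 3)) k →+* MvPolynomial (Fin (m + 3)) k :=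
    (MvPolynomial.aeval (R := k) fun i => if i = 0 then 0 else MvPolynomial.X i).toRingHom
  have πt : π t = 0 := by simp [π, t]
  have h0 : t * f ≠ 0 := by
    intro h
    have := congrArg (MvPolynomial.eval fun i => if i = 1 then (0 : k) else 1) h
    simp [t, f, x, y, n01, n21, hp.ne'] at this
  have hne : ¬ Exponential φ := by
    refine not_exp p t x y f π πt rfl h0 (by rw [hφ, ψx]; simp [c]) fun b => ?_
    rw [← Ideal.mem_span_singleton, ← Ideal.Quotient.eq]
    have : (Ideal.Quotient.mkₐ k (Ideal.span {c})).comp (ψ 1) = Ideal.Quotient.mkₐ k _ :=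
      MvPolynomial.algHom_ext fun i => by
        simp only [AlgHom.comp_apply, ψX, Ideal.Quotient.mkₐ_eq_mk]
        rw [Ideal.Quotient.eq, Ideal.mem_span_singleton, add_sub_cancel_left, Int.cast_one, one_mul]
        simp only [v]
        split_ifs
        · exact dvd_rfl
        · have h1 := sub_dvd_pow_sub_pow (-1) (t * f) (p - 1)
          have h2 : (-1 : MvPolynomial (Fin (m + 3)) k) ^ (p - 1) = 1 := by
            have := neg_one_pow_char (MvPolynomial (Fin (m + 3)) k) p
            rw [← Nat.sub_add_cancel hp, pow_succ] at this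
            simpa using this
          rw [h2, show (-1 - t * f) = -c by simp only [c]; ring, neg_dvd] at h1
          have h3 : d = f * (1 - (t * f) ^ (p - 1)) := by
            have : f ^ p = f * f ^ (p - 1) := by rw [← pow_succ', Nat.sub_add_cancel hp]
            simp only [d]; rw [this, mul_pow]; ring
          rw [h3]; exact h1.mul_left f
        · exact dvd_zero _
    exact DFunLike.congr_fun this b
  refine ⟨φ, orderOf_eq_prime ?_ fun h1 => ?_, hne⟩
  · apply AlgEquiv.ext
    intro b
    have : ψ p = AlgHom.id _ _ := MvPolynomial.algHom_ext fun i => by simp [ψX]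
    rw [hpow, this]; rfl
  · have h2 := ψx 1
    rw [← hφ, h1] at h2
    have h3 : c = 0 := by simpa using h2
    simpa [c, πt] using congrArg π h3

end Pool.Agent.Results.MP_038775_ag.NotExp
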